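import Pool.Agent.TH890.FN.Stk

/-!
A failure of Stark's conjecture for one linear character `ψ` of a number field `K` forces many
failures: for every finite set `S` of elements `t` of `K^×`, the number of the `t` in `S` such that
it fails for the quadratic twist `ψ χ_t` plus the number of the `t` in `S` such that it fails for
the restriction of `ψ` to `K(√t)` is at least the number of elements of `S`. Hence the full
conjecture follows if, for each `(K, ψ)` of a restricted family, it holds for more than half of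
these pairs for a single `S`.
-/

open Pool.Agent.TH965.Stk Pool.Agent.TH890.FN

namespace Pool.Agent.Results.MP_46b841_nt.FailuresNotSparse

/-- The conjecture fails for the linear character `ψ` of `K`. -/
def Fails (A : (ℂ ≃+* ℂ) → Family ℂˣ) (K : SubQ) (ψ : LinChar K) : Prop :=
  ∃ σ, (A σ).D K ψ.fn ≠ 1

/-- The conjecture fails for the twist of `ψ` by the quadratic character of `K(s)/K`. -/
def TwistFails (A : (ℂ ≃+* ℂ) → Family ℂˣ) (K : SubQ) (ψ : LinChar K)
    (s : AlgebraicClosure ℚ) : Prop :=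
  ∃ φ : LinChar K, IsTwist ψ s φ ∧ Fails A K φ

/-- The conjecture fails for the restriction of `ψ` to `K(s)`. -/
def LiftFails (A : (ℂ ≃+* ℂ) → Family ℂˣ) (K : SubQ) (ψ : LinChar K)
    (s : AlgebraicClosure ℚ) : Prop :=
  ∃ φ : LinChar (adj K s), IsLift ψ s φ ∧ Fails A (adj K s) φ

theorem either (A : (ℂ ≃+* ℂ) → Family ℂˣ) (K : SubQ) (hK : IsNF K) (ψ : LinChar K)
    (h : Fails A K ψ) (s : AlgebraicClosure ℚ) (hs0 : s ≠ 0) (hs : s ^ 2 ∈ K.toIF) :
    TwistFails A K ψ s ∨ LiftFails A K ψ s := by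
  obtain ⟨σ, hσ⟩ := h
  rcases dichotomy (A σ) hK hs0 hs ψ hσ with ⟨φ, h1, h2⟩ | ⟨φ, h1, h2⟩
  · exact Or.inl ⟨φ, h1, σ, h2⟩
  · exact Or.inr ⟨φ, h1, σ, h2⟩

open Classical in
/-- Stark's conjecture for all Artin characters of all number fields is equivalent to each of the
following statements, where `(K, ψ)` runs over the linear characters `ψ` of number fields `K` with
at least `N` complex places, such that `ψ` takes the value `e` at all real places of `K`, and `K` is
totally complex or `ψ` has 2-power order: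
* for each `(K, ψ)` there is a finite set `S` of square roots `s = √t` of elements of `K^×` such
  that among the `2 #S` pairs `(K, ψ χ_t)`, `(K(√t), ψ)` there are fewer than `#S` for which the
  conjecture fails;
* for each `(K, ψ)` there is `X ≥ 1` such that among the `2 X` pairs `(K, ψ χ_t)`, `(K(√t), ψ)`,
  `t = 1, ..., X`, there are fewer than `X` for which the conjecture fails. -/
theorem result (A : (ℂ ≃+* ℂ) → Family ℂˣ) (N : ℕ) (e : ℂˣ) (he : e = 1 ∨ e = -1)
    (r : ℕ → AlgebraicClosure ℚ) (hr : ∀ t, r t ^ 2 = t) :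
    ((∀ σ K, IsNF K → ∀ f ∈ Virt K, (A σ).D K f = 1) ↔
      ∀ K, IsNF K → N ≤ r2 K → ∀ ψ : LinChar K, ψ.HasSign e →
        (IsTC K ∨ ∃ a : ℕ, ∀ g, ψ.hom g ^ (2 ^ a) = 1) →
        ∃ S : Finset (AlgebraicClosure ℚ), (∀ s ∈ S, s ≠ 0 ∧ s ^ 2 ∈ K.toIF) ∧
          (S.filter fun s => TwistFails A K ψ s).card +
            (S.filter fun s => LiftFails A K ψ s).card < S.card) ∧
    ((∀ σ K, IsNF K → ∀ f ∈ Virt K, (A σ).D K f = 1) ↔
      ∀ K, IsNF K → N ≤ r2 K → ∀ ψ : LinChar K, ψ.HasSign e →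
        (IsTC K ∨ ∃ a : ℕ, ∀ g, ψ.hom g ^ (2 ^ a) = 1) →
        ∃ X : ℕ, ((Finset.Icc 1 X).filter fun t => TwistFails A K ψ (r t)).card +
            ((Finset.Icc 1 X).filter fun t => LiftFails A K ψ (r t)).card < X) := by
  have key : ∀ {ι : Type} (S : Finset ι) (P Q : ι → Prop), (∀ i ∈ S, P i ∨ Q i) →
      S.card ≤ (S.filter P).card + (S.filter Q).card := by
    intro ι S P Q h
    refine le_trans (Finset.card_le_card ?_) (Finset.card_union_le _ _)
    intro i hi
    rw [Finset.mem_union, Finset.mem_filter, Finset.mem_filter]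
    rcases h i hi with h1 | h1
    · exact Or.inl ⟨hi, h1⟩
    · exact Or.inr ⟨hi, h1⟩
  have good : (∀ σ K, IsNF K → ∀ f ∈ Virt K, (A σ).D K f = 1) →
      ∀ K, IsNF K → ∀ ψ : LinChar K, ¬ Fails A K ψ := by
    rintro H K hK ψ ⟨σ, hσ⟩
    apply hσ
    refine H σ K hK _ ?_
    rw [← virt_old]
    exact Pool.Agent.TH965.St.fn_mem_virt hK ψ.old
  have back : (∀ K, IsNF K → N ≤ r2 K → ∀ ψ : LinChar K, ψ.HasSign e →
      (IsTC K ∨ ∃ a : ℕ, ∀ g, ψ.hom g ^ (2 ^ a) = 1) → ¬ Fails A K ψ) →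
      (∀ σ K, IsNF K → ∀ f ∈ Virt K, (A σ).D K f = 1) := by
    intro H σ
    refine (main2 (A σ) N e he).2 fun K hK hN ψ h1 h2 => ?_
    by_contra hne
    exact H K hK hN ψ h1 h2 ⟨σ, hne⟩
  have nadj : ∀ K, IsNF K → ∀ s, IsNF (adj K s) := fun K hK s =>
    Pool.Agent.TH965.St.nf_sup hK (Pool.Agent.TH965.St.nf_adjoin s)
  have hr0 : ∀ t : ℕ, 1 ≤ t → r t ≠ 0 := by
    intro t ht h0
    have h1 := hr t
    rw [h0, zero_pow (by norm_num)] at h1
    have h2 : (t : AlgebraicClosure ℚ) ≠ 0 := Nat.cast_ne_zero.2 (by omega)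
    exact h2 h1.symm
  refine ⟨⟨fun H K hK hN ψ h1 h2 => ?_, fun H => back fun K hK hN ψ h1 h2 hF => ?_⟩,
    ⟨fun H K hK hN ψ h1 h2 => ?_, fun H => back fun K hK hN ψ h1 h2 hF => ?_⟩⟩
  · refine ⟨{1}, ?_, ?_⟩
    · intro s hs
      rw [Finset.mem_singleton] at hs
      subst hs
      exact ⟨one_ne_zero, by rw [one_pow]; exact one_mem _⟩
    · rw [Finset.filter_false_of_mem, Finset.filter_false_of_mem]
      · simp
      · rintro s - ⟨φ, -, h⟩
        exact good H _ (nadj K hK s) φ h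
      · rintro s - ⟨φ, -, h⟩
        exact good H K hK φ h
  · obtain ⟨S, hS, hlt⟩ := H K hK hN ψ h1 h2
    exact absurd (key S (fun s => TwistFails A K ψ s) (fun s => LiftFails A K ψ s)
      fun s hs => either A K hK ψ hF s (hS s hs).1 (hS s hs).2) (not_le.2 hlt)
  · refine ⟨1, ?_⟩
    rw [Finset.filter_false_of_mem, Finset.filter_false_of_mem]
    · simp
    · rintro s - ⟨φ, -, h⟩
      exact good H _ (nadj K hK _) φ h
    · rintro s - ⟨φ, -, h⟩
      exact good H K hK φ h
  · obtain ⟨X, hlt⟩ := H K hK hN ψ h1 h2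
    have h3 := key (Finset.Icc 1 X) (fun t => TwistFails A K ψ (r t))
      (fun t => LiftFails A K ψ (r t)) fun t ht => either A K hK ψ hF (r t)
        (hr0 t (Finset.mem_Icc.1 ht).1) (by rw [hr]; exact natCast_mem _ t)
    rw [Nat.card_Icc, Nat.add_sub_cancel] at h3
    exact absurd h3 (not_le.2 hlt)

end Pool.Agent.Results.MP_46b841_nt.FailuresNotSparse
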