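import Pool.Agent.TH877.LC.Stk

open Pool.Agent.TH965.Stk

namespace Pool.Agent.Results.MP_46b841_nt.LargeCompletions

/-- Let `T` be any subgroup of the multiplicative group of complex numbers (`T = 1`: Stark's
conjecture; the roots of unity; the algebraic numbers) and `m`, `N` natural numbers. Stark's
conjecture modulo `T` for all Artin characters of all number fields is equivalent to its special
case of the linear characters of the number fields `K` with at least `N` complex places and at most
`[K:ℚ]^(1/m)` real places, in which every prime ideal has norm at least `[K:ℚ]^(m/(m+1))` or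
ramification index over `ℚ` at least `[K:ℚ]^(m/(m+1))`. -/
theorem result (T : Subgroup ℂˣ) (A : (ℂ ≃+* ℂ) → Family ℂˣ) (N m : ℕ) :
    (∀ σ K, IsNF K → ∀ f ∈ Virt K, (A σ).D K f ∈ T) ↔
    (∀ σ K, IsNF K → N ≤ r2 K → r1 K ^ m ≤ deg K → PrimesLarge m K →
      ∀ ψ : LinChar K, (A σ).D K ψ.fn ∈ T) :=
  ⟨fun H σ => (mainLC T (A σ) N m).1 (H σ), fun H σ => (mainLC T (A σ) N m).2 (H σ)⟩

end Pool.Agent.Results.MP_46b841_nt.LargeCompletions
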