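import Pool.Agent.TH965.St.Transfer

open Pool.Agent.TH965.Stk

namespace Pool.Agent.Results.MP_46b841_nt.OddAtRealPlaces

/-- Stark's conjecture for all Artin characters of all number fields is equivalent to its special
case of the linear characters `ψ` of number fields `K` such that `K` has at least `N` complex
places, `ψ(c) = e` for the complex conjugation `c` at every real place of `K`, and moreover `K` is
totally complex or the order of `ψ` is a power of two. -/
theorem result (A : (ℂ ≃+* ℂ) → Family ℂˣ) (N : ℕ) (e : ℂˣ) (he : e = 1 ∨ e = -1) :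
    (∀ σ K, IsNF K → ∀ f ∈ Virt K, (A σ).D K f = 1) ↔
    (∀ σ K, IsNF K → N ≤ r2 K → ∀ ψ : LinChar K, ψ.HasSign e →
      (IsTC K ∨ ∃ a : ℕ, ∀ g, ψ.hom g ^ (2 ^ a) = 1) → (A σ).D K ψ.fn = 1) :=
  ⟨fun H σ => (main2 (A σ) N e he).1 (H σ), fun H σ => (main2 (A σ) N e he).2 (H σ)⟩

end Pool.Agent.Results.MP_46b841_nt.OddAtRealPlaces
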