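import Pool.Agent.TH743.SS.Final

open Pool.Agent.TH965.Stk

namespace Pool.Agent.Results.MP_46b841_nt.UpToSign

/-- Let `T` be any subgroup of the multiplicative group of complex numbers, for instance the
trivial one. If Stark's conjecture modulo `T` holds for the linear characters of totally complex
number fields with at least `N` complex places and for the trivial characters of number fields with
at least `N` complex places, then the squares of the errors lie in `T` for all Artin characters of
all number fields (for trivial `T`: Stark's conjecture holds up to sign), the errors modulo `T` are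
unchanged under twists by linear characters of order not divisible by four, and these linear
characters satisfy Stark's conjecture modulo `T`. -/
theorem result (T : Subgroup ℂˣ) (A : (ℂ ≃+* ℂ) → Family ℂˣ) (N : ℕ)
    (H : ∀ σ K, IsNF K → N ≤ r2 K → ∀ ψ : LinChar K,
      (IsTC K ∨ ∀ g, ψ.hom g = 1) → (A σ).D K ψ.fn ∈ T) :
    ∀ σ K, IsNF K →
      (∀ f ∈ Virt K, (A σ).D K f ^ 2 ∈ T ∧
        ∀ (η : LinChar K) (m : ℕ), Odd m → (∀ g, η.hom g ^ (2 * m) = 1) →
          (A σ).D K (fun g => f g * η.fn g) / (A σ).D K f ∈ T) ∧
      ∀ (η : LinChar K) (m : ℕ), Odd m → (∀ g, η.hom g ^ (2 * m) = 1) →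
        (A σ).D K η.fn ∈ T :=
  fun σ K hK => Pool.Agent.TH743.SS.new_all T (A σ) N (H σ) K hK

end Pool.Agent.Results.MP_46b841_nt.UpToSign
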